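import Pool.Agent.Helper8.SPV.Stmts

open Polynomial
open scoped Polynomial.Bivariate nonZeroDivisors

namespace Pool.Agent.Helper8.SPV

/-- an element of `k(u)` as a fraction -/
theorem A3_frac {k K : Type} [Field k] [Field K] [Algebra k K] {u x : K}
    (hx : x ∈ IntermediateField.adjoin k {u}) :
    ∃ p s : k[X], aeval u s ≠ 0 ∧ aeval u s * x = aeval u p := by
  rw [IntermediateField.mem_adjoin_simple_iff] at hx
  obtain ⟨p, s, rfl⟩ := hx
  by_cases hs : aeval u s = 0
  · exact ⟨0, 1, by simp, by simp [hs]⟩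
  · exact ⟨p, s, hs, by field_simp⟩

theorem A3_alg {k K : Type} [Field k] [IsAlgClosed k] [Field K] [Algebra k K] {u x y : K}
    (hu : Transcendental k u) (h : y ^ 2 = x ^ 3 + x + u) (hx : IsAlgebraic k x)
    (hy : y ∈ IntermediateField.adjoin k {u}) : False := by
  obtain ⟨c, rfl⟩ : ∃ c : k, algebraMap k K c = x := by
    have h1 : (minpoly k x).degree = 1 :=
      IsAlgClosed.degree_eq_one_of_irreducible k (minpoly.irreducible hx.isIntegral)
    exact minpoly.mem_range_of_degree_eq_one k x h1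
  obtain ⟨q, t, ht, hq⟩ := A3_frac hy
  have e : aeval u (q ^ 2 - t ^ 2 * (X + C (c ^ 3 + c))) = 0 := by
    simp only [map_sub, map_pow, map_mul, map_add, aeval_X, aeval_C, ← hq]
    rw [mul_pow, h]
    ring
  have e2 : q ^ 2 = t ^ 2 * (X + C (c ^ 3 + c)) := by
    by_contra hne
    exact hu ⟨_, sub_ne_zero.mpr hne, e⟩
  have ht0 : t ≠ 0 := by
    rintro rfl
    simp at ht
  have d := congrArg natDegree e2
  rw [natDegree_pow, natDegree_mul (pow_ne_zero 2 ht0) (X_add_C_ne_zero _), natDegree_pow,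
    natDegree_X_add_C] at d
  omega

/-- the kernel of an evaluation `R[X] → K` with `R → K` injective is principal (Gauss) -/
theorem A3_gen {R K : Type} [CommRing R] [IsDomain R] [IsGCDMonoid R] [Field K] (f : R →+* K)
    (hf : Function.Injective f) (y : K) (G0 : R[X]) (hG0 : G0 ≠ 0) (h0 : eval₂ f y G0 = 0) :
    ∃ F : R[X], eval₂ f y F = 0 ∧ ∀ G : R[X], eval₂ f y G = 0 → F ∣ G := by
  classical
  let _ : NormalizedGCDMonoid R := Classical.choice inferInstance
  let L := FractionRing R
  let φ : L →+* K := IsFractionRing.lift (g := f) hf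
  have hφ : φ.comp (algebraMap R L) = f := by
    ext r
    exact IsFractionRing.lift_algebraMap hf r
  have hmap : ∀ G : R[X], eval₂ φ y (G.map (algebraMap R L)) = eval₂ f y G := by
    intro G
    rw [eval₂_map, hφ]
  obtain ⟨g, hg⟩ : ∃ g : L[X], ∀ G : L[X], eval₂ φ y G = 0 ↔ g ∣ G := by
    obtain ⟨g, hg⟩ := (IsPrincipalIdealRing.principal (RingHom.ker (eval₂RingHom φ y))).principal
    refine ⟨g, fun G => ?_⟩
    have h1 : G ∈ RingHom.ker (eval₂RingHom φ y) ↔ G ∈ Ideal.span {g} := by
      rw [hg]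
    rw [Ideal.mem_span_singleton, RingHom.mem_ker] at h1
    exact h1
  have hinj : Function.Injective (algebraMap R L) := IsFractionRing.injective R L
  have hg0 : g ≠ 0 := by
    rintro rfl
    have h1 := (hg (G0.map (algebraMap R L))).mp (by rw [hmap, h0])
    rw [zero_dvd_iff, Polynomial.map_eq_zero_iff hinj] at h1
    exact hG0 h1
  obtain ⟨b, hbm, hb⟩ := IsLocalization.integerNormalization_spec (nonZeroDivisors R) g
  set F0 : R[X] := IsLocalization.integerNormalization (nonZeroDivisors R) g with hF0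
  have hb0 : (b : R) ≠ 0 := nonZeroDivisors.ne_zero hbm
  have hb' : F0.map (algebraMap R L) = C (algebraMap R L (b : R)) * g := by
    rw [hb, Algebra.smul_def]
    rfl
  have hbL : algebraMap R L (b : R) ≠ 0 := by
    rw [Ne, map_eq_zero_iff _ hinj]
    exact hb0
  have hF0ne : F0 ≠ 0 := by
    intro h
    rw [h, Polynomial.map_zero] at hb'
    exact mul_ne_zero (C_ne_zero.mpr hbL) hg0 hb'.symm
  have hc : F0 = C F0.content * F0.primPart := F0.eq_C_content_mul_primPart
  have hc0 : F0.content ≠ 0 := by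
    rw [Ne, content_eq_zero_iff]
    exact hF0ne
  have hev0 : eval₂ f y F0 = 0 := by
    rw [← hmap, hg, hb']
    exact Dvd.intro_left _ rfl
  refine ⟨F0.primPart, ?_, fun G hG => ?_⟩
  · rw [hc, eval₂_mul, eval₂_C] at hev0
    rcases mul_eq_zero.mp hev0 with h | h
    · exact absurd ((map_eq_zero_iff f hf).mp h) hc0
    · exact h
  · apply F0.isPrimitive_primPart.dvd_of_fraction_map_dvd_fraction_map (K := L)
    have h1 : g ∣ G.map (algebraMap R L) := (hg _).mp (by rw [hmap, hG])
    refine dvd_trans ?_ h1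
    have h2 : C (algebraMap R L F0.content) * F0.primPart.map (algebraMap R L) =
        C (algebraMap R L (b : R)) * g := by
      rw [← hb']
      conv_rhs => rw [hc]
      rw [Polynomial.map_mul, map_C]
    have hcL : algebraMap R L F0.content ≠ 0 := by
      rw [Ne, map_eq_zero_iff _ hinj]
      exact hc0
    refine ⟨C (algebraMap R L F0.content / algebraMap R L (b : R)), ?_⟩
    have h3 : g = C (algebraMap R L (b : R))⁻¹ * (C (algebraMap R L (b : R)) * g) := by
      rw [← mul_assoc, ← C_mul, inv_mul_cancel₀ hbL, C_1, one_mul]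
    rw [h3, ← h2, div_eq_mul_inv, C_mul]
    ring

noncomputable section

/-- the curve `y² = x³ + x + u` -/
def A3_W {K : Type} [Field K] (u : K) : WeierstrassCurve.Affine K := ⟨0, 0, 0, 1, u⟩

theorem A3_rel {K : Type} [Field K] (u : K) :
    (A3_W u).polynomial = Y ^ 2 - C (X ^ 3 + X + C u) := by
  simp [WeierstrassCurve.Affine.polynomial, A3_W]

open WeierstrassCurve.Affine

/-- `k[x][y] → K[E]` -/
def A3_iota (k : Type) {K : Type} [Field k] [Field K] [Algebra k K] (u : K) :
    k[X][Y] →+* (A3_W u).CoordinateRing :=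
  (CoordinateRing.mk (A3_W u)).comp (mapRingHom (mapRingHom (algebraMap k K)))

/-- the polynomial `y² - x³ - x` -/
def A3_U (k : Type) [Field k] : k[X][Y] := Y ^ 2 - C (X ^ 3 + X)

/-- `s(y² - x³ - x)` -/
def A3_s {k : Type} [Field k] (s : k[X]) : k[X][Y] :=
  eval₂ (C.comp C) (A3_U k) s

theorem A3_mkY {K : Type} [Field K] (u : K) :
    CoordinateRing.mk (A3_W u) Y ^ 2 = CoordinateRing.mk (A3_W u) (C (X ^ 3 + X + C u)) := by
  rw [← map_pow, ← sub_eq_zero, ← map_sub, ← A3_rel]
  exact AdjoinRoot.mk_self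

theorem A3_iota_U {k K : Type} [Field k] [Field K] [Algebra k K] (u : K) :
    A3_iota k u (A3_U k) = CoordinateRing.mk (A3_W u) (C (C u)) := by
  have h1 : A3_iota k u (A3_U k) = CoordinateRing.mk (A3_W u) Y ^ 2 -
      CoordinateRing.mk (A3_W u) (C (X ^ 3 + X)) := by
    simp only [A3_iota, A3_U, RingHom.comp_apply, coe_mapRingHom, Polynomial.map_sub,
      Polynomial.map_pow, map_X, map_C, Polynomial.map_add, map_sub, map_pow]
  rw [h1, A3_mkY, ← map_sub, ← C_sub]
  congr 2
  ring

theorem A3_iota_s {k K : Type} [Field k] [Field K] [Algebra k K] (u : K) (s : k[X]) :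
    A3_iota k u (A3_s s) = CoordinateRing.mk (A3_W u) (C (C (aeval u s))) := by
  have h0 : (A3_iota k u).comp ((C : k[X] →+* k[X][Y]).comp (C : k →+* k[X])) =
      (((CoordinateRing.mk (A3_W u)).comp ((C : K[X] →+* K[X][Y]).comp (C : K →+* K[X])))).comp
        (algebraMap k K) := by
    ext c
    simp [A3_iota]
  rw [A3_s, hom_eval₂, h0, A3_iota_U]
  have h1 : CoordinateRing.mk (A3_W u) (C (C u)) =
    ((CoordinateRing.mk (A3_W u)).comp ((C : K[X] →+* K[X][Y]).comp (C : K →+* K[X]))) u := rfl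
  rw [h1, ← hom_eval₂]
  rfl

/-- the norm degree of an element of `k[x][y]` -/
def A3_d {k K : Type} [Field k] [Field K] [Algebra k K] (u : K) (G : k[X][Y]) : ℕ :=
  (Algebra.norm K[X] (A3_iota k u G)).natDegree

theorem A3_d_ne_one {k K : Type} [Field k] [Field K] [Algebra k K] (u : K) (G : k[X][Y]) :
    A3_d u G ≠ 1 :=
  CoordinateRing.natDegree_norm_ne_one _

theorem A3_d_mul {k K : Type} [Field k] [Field K] [Algebra k K] (u : K) (G H : k[X][Y])
    (hne : Algebra.norm K[X] (A3_iota k u (G * H)) ≠ 0) :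
    A3_d u (G * H) = A3_d u G + A3_d u H := by
  rw [map_mul, map_mul] at hne
  rw [A3_d, map_mul, map_mul, natDegree_mul (left_ne_zero_of_mul hne) (right_ne_zero_of_mul hne)]
  rfl

theorem A3_deg2 {k K : Type} [Field k] [Field K] [Algebra k K] (u : K) (s p : k[X])
    (hs : aeval u s ≠ 0) :
    (Algebra.norm K[X] (A3_iota k u (A3_s s * C X - A3_s p))).degree = 2 := by
  have h1 : A3_iota k u (A3_s s * C X - A3_s p) =
      (C (aeval u s) * X - C (aeval u p) : K[X]) • (1 : (A3_W u).CoordinateRing) +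
        (0 : K[X]) • CoordinateRing.mk (A3_W u) Y := by
    rw [zero_smul, add_zero, CoordinateRing.smul, mul_one, map_sub, map_mul, A3_iota_s, A3_iota_s,
      C_sub, C_mul, map_sub, map_mul]
    congr 2
    simp [A3_iota]
  rw [h1, CoordinateRing.degree_norm_smul_basis]
  have h2 : (C (aeval u s) * X - C (aeval u p) : K[X]).degree = 1 := by
    rw [sub_eq_add_neg, ← C_neg]
    exact degree_linear hs
  rw [h2]
  simp

theorem A3_deg3 {k K : Type} [Field k] [Field K] [Algebra k K] (u : K) (s p : k[X])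
    (hs : aeval u s ≠ 0) :
    (Algebra.norm K[X] (A3_iota k u (A3_s s * Y - A3_s p))).degree = 3 := by
  have h1 : A3_iota k u (A3_s s * Y - A3_s p) =
      (- C (aeval u p) : K[X]) • (1 : (A3_W u).CoordinateRing) +
        (C (aeval u s) : K[X]) • CoordinateRing.mk (A3_W u) Y := by
    rw [CoordinateRing.smul, CoordinateRing.smul, mul_one, map_sub, map_mul, A3_iota_s, A3_iota_s,
      C_neg, map_neg, neg_add_eq_sub]
    congr 2
    simp [A3_iota]
  rw [h1, CoordinateRing.degree_norm_smul_basis, degree_C hs]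
  have h2 : (- C (aeval u p) : K[X]).degree ≤ 0 := by
    rw [degree_neg]
    exact degree_C_le
  have h3 : 2 • (- C (aeval u p) : K[X]).degree ≤ 0 := by
    rw [two_nsmul]
    exact add_nonpos h2 h2
  rw [max_eq_right]
  · simp
  · refine h3.trans ?_
    simp

/-- an element vanishing at the point `(x, y)` of the curve has norm vanishing at `x` -/
theorem A3_norm_eval {k K : Type} [Field k] [Field K] [Algebra k K] {u x y : K}
    (h : y ^ 2 = x ^ 3 + x + u) (F : k[X][Y])
    (hF : eval₂ (aeval x : k[X] →ₐ[k] K).toRingHom y F = 0) :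
    (Algebra.norm K[X] (A3_iota k u F)).eval x = 0 := by
  obtain ⟨p, q, hpq⟩ := CoordinateRing.exists_smul_basis_eq (A3_iota k u F)
  have h1 : CoordinateRing.mk (A3_W u) (F.map (mapRingHom (algebraMap k K))) =
      CoordinateRing.mk (A3_W u) (C p + C q * Y) := by
    rw [map_add, map_mul, ← mul_one (CoordinateRing.mk (A3_W u) (C p)), ← CoordinateRing.smul,
      ← CoordinateRing.smul, hpq]
    rfl
  obtain ⟨H, hH⟩ := AdjoinRoot.mk_eq_mk.mp h1
  have h2 : evalEval x y (F.map (mapRingHom (algebraMap k K))) = 0 := by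
    have h5 : (evalEvalRingHom x y).comp (mapRingHom (mapRingHom (algebraMap k K))) =
        eval₂RingHom (aeval x : k[X] →ₐ[k] K).toRingHom y := by
      ext c <;> simp
    have h6 := RingHom.congr_fun h5 F
    rw [coe_eval₂RingHom, hF] at h6
    exact h6
  have h3 := congrArg (evalEval x y) hH
  rw [evalEval_sub, h2, evalEval_mul, A3_rel, evalEval_add, evalEval_mul] at h3
  simp only [evalEval_sub, evalEval_pow, evalEval_X, evalEval_C, eval_add, eval_pow, eval_X,
    eval_C, h, sub_self, zero_mul] at h3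
  rw [← hpq, CoordinateRing.norm_smul_basis]
  simp only [A3_W, eval_sub, eval_pow, eval_mul, eval_add, eval_X, eval_C, C_0, C_1, zero_mul,
    eval_zero, add_zero, mul_zero, sub_zero, one_mul]
  have h4 : eval x p = - (eval x q * y) := by linear_combination -h3
  rw [h4]
  linear_combination (eval x q) ^ 2 * h

theorem st_A3 : ST_A3 := by
  intro k K _ _ _ _ _ u x y hu h hx hy
  by_cases hxa : IsAlgebraic k x
  · exact A3_alg hu h hxa hy
  obtain ⟨p, s, hs, hp⟩ := A3_frac hx
  obtain ⟨q, t, ht, hq⟩ := A3_frac hy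
  let f : k[X] →+* K := (aeval x : k[X] →ₐ[k] K).toRingHom
  have hf : Function.Injective f := transcendental_iff_injective.mp hxa
  have hU : eval₂ f y (A3_U k) = u := by
    simp only [A3_U, f, eval₂_sub, eval₂_pow, eval₂_X, eval₂_C]
    simp [h]
  have hev : ∀ r : k[X], eval₂ f y (A3_s r) = aeval u r := by
    intro r
    have h0 : (eval₂RingHom f y).comp ((C : k[X] →+* k[X][Y]).comp (C : k →+* k[X])) =
        algebraMap k K := by
      ext c
      simp [f]
    rw [A3_s, ← coe_eval₂RingHom, hom_eval₂, h0, coe_eval₂RingHom, hU]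
    rfl
  have hG1 : eval₂ f y (A3_s s * C X - A3_s p) = 0 := by
    rw [eval₂_sub, eval₂_mul, hev, hev, eval₂_C, ← hp]
    simp [f]
  have hG2 : eval₂ f y (A3_s t * Y - A3_s q) = 0 := by
    rw [eval₂_sub, eval₂_mul, hev, hev, eval₂_X, ← hq]
    simp
  have d1 := A3_deg2 (k := k) u s p hs
  have d2 := A3_deg3 (k := k) u t q ht
  have hG1ne : A3_s s * C X - A3_s p ≠ 0 := by
    intro h0
    have : Module.Finite K[X] (A3_W u).CoordinateRing :=
      Module.Finite.of_basis (CoordinateRing.basis (A3_W u))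
    rw [h0, map_zero, Algebra.norm_zero] at d1
    simp at d1
  obtain ⟨F, hF, hdiv⟩ := A3_gen f hf y _ hG1ne hG1
  obtain ⟨H1, hH1⟩ := hdiv _ hG1
  obtain ⟨H2, hH2⟩ := hdiv _ hG2
  rw [hH1] at d1
  rw [hH2] at d2
  have n1 : Algebra.norm K[X] (A3_iota k u (F * H1)) ≠ 0 := by
    intro h0
    rw [h0] at d1
    simp at d1
  have n2 : Algebra.norm K[X] (A3_iota k u (F * H2)) ≠ 0 := by
    intro h0
    rw [h0] at d2
    simp at d2
  have e1 : A3_d u F + A3_d u H1 = 2 := by
    rw [← A3_d_mul u F H1 n1]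
    exact natDegree_eq_of_degree_eq_some d1
  have e2 : A3_d u F + A3_d u H2 = 3 := by
    rw [← A3_d_mul u F H2 n2]
    exact natDegree_eq_of_degree_eq_some d2
  have hd : A3_d u F = 0 := by
    have a1 := A3_d_ne_one u F
    have a2 := A3_d_ne_one u H1
    have a3 := A3_d_ne_one u H2
    omega
  have hN := A3_norm_eval h F hF
  have hNC := eq_C_of_natDegree_eq_zero hd
  rw [map_mul, map_mul] at n1
  have hFn := left_ne_zero_of_mul n1
  rw [hNC, eval_C] at hN
  apply hFn
  rw [hNC, hN, C_0]

end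

end Pool.Agent.Helper8.SPV
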